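import Pool.Agent.Y105.HG.Stm

/-!
# Haar multipliers are bounded in `L_r`, `1 < r ≤ 2` (job HG-U)
-/

set_option autoImplicit false

open MeasureTheory

namespace Pool.Agent.Y781.HG

open Pool.Agent.Y105.HG

/-- left half of a dyadic interval -/
def Lf (n k : ℕ) : Set ℝ := Set.Ico ((k : ℝ) / 2 ^ n) (((k : ℝ) + 1 / 2) / 2 ^ n)

/-- right half of a dyadic interval -/
def Rt (n k : ℕ) : Set ℝ := Set.Ico (((k : ℝ) + 1 / 2) / 2 ^ n) (((k : ℝ) + 1) / 2 ^ n)

/-- the dyadic interval -/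
def Ce (n k : ℕ) : Set ℝ := Set.Ico ((k : ℝ) / 2 ^ n) (((k : ℝ) + 1) / 2 ^ n)

lemma hs_some (n : ℕ) (k : Fin (2 ^ n)) (x : ℝ) :
    hs (some ⟨n, k⟩) x = (Lf n k).indicator (fun _ => (1 : ℝ)) x -
      (Rt n k).indicator (fun _ => (1 : ℝ)) x := rfl

lemma Lf_sub (n k : ℕ) : Lf n k ⊆ Ce n k := by
  intro x hx
  refine ⟨hx.1, lt_of_lt_of_le hx.2 ?_⟩
  gcongr
  norm_num

lemma Rt_sub (n k : ℕ) : Rt n k ⊆ Ce n k := by
  intro x hx
  refine ⟨le_trans ?_ hx.1, hx.2⟩
  gcongr
  norm_num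

lemma mLf (n k : ℕ) : MeasurableSet (Lf n k) := measurableSet_Ico

lemma mRt (n k : ℕ) : MeasurableSet (Rt n k) := measurableSet_Ico

lemma disj (n k : ℕ) (x : ℝ) (h1 : x ∈ Lf n k) : x ∉ Rt n k := by
  intro h2
  exact absurd h1.2 (not_lt.mpr h2.1)

lemma cover (n k : ℕ) (x : ℝ) (h : x ∈ Ce n k) (h1 : x ∉ Lf n k) : x ∈ Rt n k := by
  refine ⟨?_, h.2⟩
  by_contra h2
  exact h1 ⟨h.1, not_le.mp h2⟩

lemma le_iff' (n k : ℕ) (x : ℝ) (hx : x ∈ Ce n k) (b : ℕ) : (b : ℝ) / 2 ^ n ≤ x ↔ b ≤ k := by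
  have h2 : (0 : ℝ) < 2 ^ n := by positivity
  constructor
  · intro h
    by_contra hk
    have hk' : k + 1 ≤ b := by omega
    have h3 : ((k : ℝ) + 1) / 2 ^ n ≤ (b : ℝ) / 2 ^ n := by
      gcongr
      exact_mod_cast hk'
    exact absurd (lt_of_lt_of_le hx.2 h3) (not_lt.mpr h)
  · intro h
    refine le_trans ?_ hx.1
    gcongr

lemma mem_of_lt (m l n k d : ℕ) (hn : n = m + 1 + d) (x : ℝ) (hx : x ∈ Ce n k) :
    (x ∈ Lf m l ↔ (l * 2 ^ (d + 1) ≤ k ∧ ¬ ((2 * l + 1) * 2 ^ d ≤ k))) ∧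
    (x ∈ Rt m l ↔ ((2 * l + 1) * 2 ^ d ≤ k ∧ ¬ ((l + 1) * 2 ^ (d + 1) ≤ k))) := by
  have e1 : (l : ℝ) / 2 ^ m = ((l * 2 ^ (d + 1) : ℕ) : ℝ) / 2 ^ n := by
    subst hn
    push_cast
    rw [show m + 1 + d = m + (d + 1) by ring, pow_add]
    field_simp
    try ring
  have e2 : ((l : ℝ) + 1 / 2) / 2 ^ m = (((2 * l + 1) * 2 ^ d : ℕ) : ℝ) / 2 ^ n := by
    subst hn
    push_cast
    rw [show m + 1 + d = m + (d + 1) by ring, pow_add, pow_succ]
    field_simp
  have e3 : ((l : ℝ) + 1) / 2 ^ m = (((l + 1) * 2 ^ (d + 1) : ℕ) : ℝ) / 2 ^ n := by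
    subst hn
    push_cast
    rw [show m + 1 + d = m + (d + 1) by ring, pow_add]
    field_simp
    try ring
  unfold Lf Rt
  rw [Set.mem_Ico, Set.mem_Ico, e1, e2, e3, ← not_le, ← not_le, le_iff' n k x hx, le_iff' n k x hx,
    le_iff' n k x hx]
  exact ⟨Iff.rfl, Iff.rfl⟩

lemma const_of (j i : Σ n : ℕ, Fin (2 ^ n)) (hji : j ≠ i) (hle : j.1 ≤ i.1) (x y : ℝ)
    (hx : x ∈ Ce i.1 i.2) (hy : y ∈ Ce i.1 i.2) : hs (some j) x = hs (some j) y := by
  obtain ⟨m, l⟩ := j
  obtain ⟨n, k⟩ := i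
  simp only at hle hx hy
  rcases Nat.eq_or_lt_of_le hle with h | h
  · subst h
    have key : ∀ z ∈ Ce m k, hs (some ⟨m, l⟩) z = 0 := by
      intro z hz
      have hnot : z ∉ Ce m l := by
        intro hz2
        have h1 := (le_iff' m k z hz l).mp hz2.1
        have h2 := (le_iff' m l z hz2 k).mp hz.1
        apply hji
        have : l = k := Fin.ext (le_antisymm h1 h2)
        rw [this]
      rw [hs_some, Set.indicator_of_notMem (fun h => hnot (Lf_sub _ _ h)),
        Set.indicator_of_notMem (fun h => hnot (Rt_sub _ _ h)), sub_zero]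
    rw [key x hx, key y hy]
  · obtain ⟨d, hd⟩ := Nat.exists_eq_add_of_lt h
    have hd' : n = m + 1 + d := by omega
    have hx' := mem_of_lt m l n k d hd' x hx
    have hy' := mem_of_lt m l n k d hd' y hy
    rw [hs_some, hs_some]
    have a1 : x ∈ Lf m l ↔ y ∈ Lf m l := hx'.1.trans hy'.1.symm
    have a2 : x ∈ Rt m l ↔ y ∈ Rt m l := hx'.2.trans hy'.2.symm
    classical
    rw [Set.indicator_apply, Set.indicator_apply, Set.indicator_apply, Set.indicator_apply]
    simp only [a1, a2]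

lemma leb_half (n : ℕ) (k : Fin (2 ^ n)) :
    leb.real (Lf n k) = (1 / 2 : ℝ) ^ (n + 1) ∧ leb.real (Rt n k) = (1 / 2 : ℝ) ^ (n + 1) := by
  have h2 : (0 : ℝ) < 2 ^ n := by positivity
  have hk : ((k : ℕ) : ℝ) + 1 ≤ 2 ^ n := by
    have := k.2
    exact_mod_cast this
  have hsub : Ce n k ⊆ Set.Icc (0 : ℝ) 1 := by
    intro x hx
    refine ⟨le_trans (by positivity) hx.1, le_trans hx.2.le ?_⟩
    rw [div_le_one h2]
    exact hk
  constructor
  · rw [leb, measureReal_restrict_apply (mLf _ _), Set.inter_eq_left.mpr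
      ((Lf_sub n k).trans hsub), Lf, Real.volume_real_Ico_of_le (by gcongr; norm_num)]
    rw [pow_succ]
    field_simp
    ring_nf
    rw [← mul_pow]
    norm_num
  · rw [leb, measureReal_restrict_apply (mRt _ _), Set.inter_eq_left.mpr
      ((Rt_sub n k).trans hsub), Rt, Real.volume_real_Ico_of_le (by gcongr; norm_num)]
    rw [pow_succ]
    field_simp
    ring_nf
    rw [← mul_pow]
    norm_num

instance : IsFiniteMeasure leb := by
  unfold leb
  infer_instance

/-- order of the induction -/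
def ord : HIx → ℕ
  | none => 0
  | some i => i.1 + 1

section step

variable {𝕜 : Type} [RCLike 𝕜]

/-- the partial sum -/
noncomputable def ps (F : Finset HIx) (c : HIx → 𝕜) (x : ℝ) : 𝕜 := ∑ i ∈ F, c i * ((hs i x : ℝ) : 𝕜)

lemma ps_const (F : Finset HIx) (c : HIx → 𝕜) (i : Σ n : ℕ, Fin (2 ^ n)) (hi : some i ∉ F)
    (hmax : ∀ j ∈ F, ord j ≤ ord (some i)) (x y : ℝ) (hx : x ∈ Ce i.1 i.2) (hy : y ∈ Ce i.1 i.2) :
    ps F c x = ps F c y := by
  unfold ps
  refine Finset.sum_congr rfl fun j hj => ?_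
  cases j with
  | none => rfl
  | some j =>
    have hne : j ≠ i := by
      rintro rfl
      exact hi hj
    have hle : j.1 ≤ i.1 := by
      have := hmax _ hj
      simp only [ord] at this
      omega
    rw [const_of j i hne hle x y hx hy]

lemma pointwise (F : Finset HIx) (c g : HIx → 𝕜) (n : ℕ) (k : Fin (2 ^ n))
    (hi : some ⟨n, k⟩ ∉ F) (hmax : ∀ j ∈ F, ord j ≤ ord (some ⟨n, k⟩)) :
    ∃ x0 y0 : 𝕜, ∀ (Φ : 𝕜 → 𝕜 → ℝ) (x : ℝ),
      Φ (ps (insert (some ⟨n, k⟩) F) c x) (ps (insert (some ⟨n, k⟩) F) g x) =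
      Φ (ps F c x) (ps F g x) +
        (Lf n k).indicator (fun _ => Φ (x0 + c (some ⟨n, k⟩)) (y0 + g (some ⟨n, k⟩)) - Φ x0 y0) x +
        (Rt n k).indicator (fun _ => Φ (x0 - c (some ⟨n, k⟩)) (y0 - g (some ⟨n, k⟩)) - Φ x0 y0) x := by
  classical
  set i : Σ n : ℕ, Fin (2 ^ n) := ⟨n, k⟩ with hidef
  set z : ℝ := ((k : ℕ) : ℝ) / 2 ^ n with hz
  have hzc : z ∈ Ce n k := by
    refine ⟨le_refl _, ?_⟩
    rw [hz]
    gcongr
    linarith
  refine ⟨ps F c z, ps F g z, fun Φ x => ?_⟩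
  have hins : ∀ (u : HIx → 𝕜), ps (insert (some i) F) u x =
      ps F u x + u (some i) * ((hs (some i) x : ℝ) : 𝕜) := by
    intro u
    unfold ps
    rw [Finset.sum_insert hi, add_comm]
  rw [hins c, hins g]
  by_cases h1 : x ∈ Lf n k
  · have h2 := disj n k x h1
    have hc1 := ps_const F c i hi hmax x z (Lf_sub _ _ h1) hzc
    have hc2 := ps_const F g i hi hmax x z (Lf_sub _ _ h1) hzc
    rw [hs_some, Set.indicator_of_mem h1, Set.indicator_of_notMem h2, Set.indicator_of_mem h1,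
      Set.indicator_of_notMem h2, hc1, hc2]
    simp
  · by_cases h2 : x ∈ Rt n k
    · have hc1 := ps_const F c i hi hmax x z (Rt_sub _ _ h2) hzc
      have hc2 := ps_const F g i hi hmax x z (Rt_sub _ _ h2) hzc
      rw [hs_some, Set.indicator_of_notMem h1, Set.indicator_of_mem h2, Set.indicator_of_notMem h1,
        Set.indicator_of_mem h2, hc1, hc2]
      simp [sub_eq_add_neg]
    · rw [hs_some, Set.indicator_of_notMem h1, Set.indicator_of_notMem h2, Set.indicator_of_notMem h1,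
        Set.indicator_of_notMem h2]
      simp

lemma int_ind (n : ℕ) (k : Fin (2 ^ n)) (a : ℝ) :
    Integrable ((Lf n k).indicator (fun _ => a)) leb ∧
    Integrable ((Rt n k).indicator (fun _ => a)) leb ∧
    ∫ x, (Lf n k).indicator (fun _ => a) x ∂leb = (1 / 2 : ℝ) ^ (n + 1) * a ∧
    ∫ x, (Rt n k).indicator (fun _ => a) x ∂leb = (1 / 2 : ℝ) ^ (n + 1) * a := by
  refine ⟨(integrable_const a).indicator measurableSet_Ico,
    (integrable_const a).indicator measurableSet_Ico, ?_, ?_⟩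
  · rw [integral_indicator_const a (mLf _ _), (leb_half n k).1, smul_eq_mul]
  · rw [integral_indicator_const a (mRt _ _), (leb_half n k).2, smul_eq_mul]

lemma integ (F : Finset HIx) (c g : HIx → 𝕜) (Φ : 𝕜 → 𝕜 → ℝ) :
    Integrable (fun x => Φ (ps F c x) (ps F g x)) leb := by
  classical
  induction F using Finset.induction_on_max_value ord with
  | empty =>
    simp only [ps, Finset.sum_empty]
    exact integrable_const _
  | insert i F hi hmax ih =>
    cases i with
    | none =>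
      have hF : F = ∅ := by
        rw [Finset.eq_empty_iff_forall_notMem]
        intro j hj
        cases j with
        | none => exact hi hj
        | some j =>
          have := hmax _ hj
          simp [ord] at this
      subst hF
      simp only [ps, insert_empty_eq, Finset.sum_singleton, hs]
      exact integrable_const _
    | some i =>
      obtain ⟨n, k⟩ := i
      obtain ⟨x0, y0, h⟩ := pointwise F c g n k hi hmax
      have : (fun x => Φ (ps (insert (some ⟨n, k⟩) F) c x) (ps (insert (some ⟨n, k⟩) F) g x)) =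
          fun x => Φ (ps F c x) (ps F g x) +
        (Lf n k).indicator (fun _ => Φ (x0 + c (some ⟨n, k⟩)) (y0 + g (some ⟨n, k⟩)) - Φ x0 y0) x +
        (Rt n k).indicator (fun _ => Φ (x0 - c (some ⟨n, k⟩)) (y0 - g (some ⟨n, k⟩)) - Φ x0 y0) x := by
        funext x
        exact h Φ x
      rw [this]
      exact (ih.add (int_ind n k _).1).add (int_ind n k _).2.1

/-- the special function -/
noncomputable def Wf (r : ℝ) (x y : 𝕜) : ℝ :=
  (‖x‖ ^ 2 + ‖y‖ ^ 2) ^ (r / 2) - 2 / (r - 1) ^ 2 * ‖x‖ ^ r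

lemma main (hW : S_W) (r : ℝ) (h1 : 1 < r) (h2 : r ≤ 2) (F : Finset HIx) (c g : HIx → 𝕜)
    (hcg : ∀ i, ‖g i‖ ≤ ‖c i‖) : ∫ x, Wf r (ps F c x) (ps F g x) ∂leb ≤ 0 := by
  classical
  have hr : 0 < r := by linarith
  have hC : (2 : ℝ) ≤ 2 / (r - 1) ^ 2 := by
    have h3 : 0 < (r - 1) ^ 2 := by
      have : 0 < r - 1 := by linarith
      positivity
    rw [le_div_iff₀ h3]
    nlinarith
  induction F using Finset.induction_on_max_value ord with
  | empty =>
    simp only [ps, Finset.sum_empty, Wf, norm_zero]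
    rw [Real.zero_rpow hr.ne']
    simp [Real.zero_rpow (show r / 2 ≠ 0 by positivity)]
  | insert i F hi hmax ih =>
    cases i with
    | none =>
      have hF : F = ∅ := by
        rw [Finset.eq_empty_iff_forall_notMem]
        intro j hj
        cases j with
        | none => exact hi hj
        | some j =>
          have := hmax _ hj
          simp [ord] at this
      subst hF
      simp only [ps, insert_empty_eq, Finset.sum_singleton, hs, RCLike.ofReal_one, mul_one]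
      refine integral_nonpos fun x => ?_
      simp only [Wf, Pi.zero_apply, sub_nonpos]
      have ha : 0 ≤ ‖c none‖ := norm_nonneg _
      have h3 : (‖c none‖ ^ 2 + ‖g none‖ ^ 2) ^ (r / 2) ≤ (2 * ‖c none‖ ^ 2) ^ (r / 2) := by
        apply Real.rpow_le_rpow (by positivity) _ (by positivity)
        have := pow_le_pow_left₀ (norm_nonneg _) (hcg none) 2
        linarith
      have h4 : (2 * ‖c none‖ ^ 2) ^ (r / 2) = 2 ^ (r / 2) * ‖c none‖ ^ r := by
        rw [Real.mul_rpow (by norm_num) (by positivity), ← Real.rpow_natCast, ← Real.rpow_mul ha]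
        congr 2
        push_cast
        ring
      have h5 : (2 : ℝ) ^ (r / 2) ≤ 2 := by
        calc (2 : ℝ) ^ (r / 2) ≤ 2 ^ (1 : ℝ) :=
              Real.rpow_le_rpow_of_exponent_le (by norm_num) (by linarith)
          _ = 2 := Real.rpow_one 2
      have h6 : 0 ≤ ‖c none‖ ^ r := Real.rpow_nonneg ha r
      calc _ ≤ 2 ^ (r / 2) * ‖c none‖ ^ r := h3.trans h4.le
        _ ≤ _ := by
          apply mul_le_mul_of_nonneg_right (h5.trans hC) h6
    | some i =>
      obtain ⟨n, k⟩ := i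
      obtain ⟨x0, y0, h⟩ := pointwise F c g n k hi hmax
      have e : (fun x => Wf r (ps (insert (some ⟨n, k⟩) F) c x) (ps (insert (some ⟨n, k⟩) F) g x)) =
          fun x => Wf r (ps F c x) (ps F g x) +
        (Lf n k).indicator (fun _ => Wf r (x0 + c (some ⟨n, k⟩)) (y0 + g (some ⟨n, k⟩)) -
          Wf r x0 y0) x +
        (Rt n k).indicator (fun _ => Wf r (x0 - c (some ⟨n, k⟩)) (y0 - g (some ⟨n, k⟩)) -
          Wf r x0 y0) x := by
        funext x
        exact h (Wf r) x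
      have e3 : ∀ A B : ℝ, ∫ x, (Wf r (ps F c x) (ps F g x) + (Lf n k).indicator (fun _ => A) x +
          (Rt n k).indicator (fun _ => B) x) ∂leb = ∫ x, Wf r (ps F c x) (ps F g x) ∂leb +
          (1 / 2 : ℝ) ^ (n + 1) * A + (1 / 2 : ℝ) ^ (n + 1) * B := by
        intro A B
        have i1 : Integrable (fun x => Wf r (ps F c x) (ps F g x)) leb := integ F c g (Wf r)
        have i2 : Integrable (fun x => Wf r (ps F c x) (ps F g x) +
            (Lf n k).indicator (fun _ => A) x) leb := i1.add (int_ind n k A).1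
        rw [integral_add i2 (int_ind n k B).2.1, integral_add i1 (int_ind n k A).1,
          (int_ind n k A).2.2.1, (int_ind n k B).2.2.2]
      rw [e, e3]
      have hw := hW 𝕜 r h1 h2 x0 y0 (c (some ⟨n, k⟩)) (g (some ⟨n, k⟩)) (hcg _)
      have hp : (0 : ℝ) < (1 / 2 : ℝ) ^ (n + 1) := by positivity
      have hw' : (Wf r (x0 + c (some ⟨n, k⟩)) (y0 + g (some ⟨n, k⟩)) - Wf r x0 y0) +
          (Wf r (x0 - c (some ⟨n, k⟩)) (y0 - g (some ⟨n, k⟩)) - Wf r x0 y0) ≤ 0 := by
        simp only [Wf]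
        linarith
      have := mul_nonpos_of_nonneg_of_nonpos hp.le hw'
      rw [mul_add] at this
      linarith

end step

theorem u (hW : Pool.Agent.Y105.HG.S_W) : Pool.Agent.Y105.HG.S_U := by
  intro 𝕜 _ r h1 h2
  have hr : 0 < r := by linarith
  have h3 : 0 < (r - 1) ^ 2 := by
    have : 0 < r - 1 := by linarith
    positivity
  refine ⟨2 / (r - 1) ^ 2, by positivity, fun F c ε hε => ?_⟩
  have hcg : ∀ i, ‖ε i * c i‖ ≤ ‖c i‖ := by
    intro i
    rw [norm_mul]
    exact mul_le_of_le_one_left (norm_nonneg _) (hε i)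
  have hm := main hW r h1 h2 F c (fun i => ε i * c i) hcg
  have i1 : Integrable (fun x => (‖ps F c x‖ ^ 2 + ‖ps F (fun i => ε i * c i) x‖ ^ 2) ^ (r / 2)) leb :=
    integ F c (fun i => ε i * c i) (fun x y => (‖x‖ ^ 2 + ‖y‖ ^ 2) ^ (r / 2))
  have i2 : Integrable (fun x => ‖ps F c x‖ ^ r) leb :=
    integ F c (fun i => ε i * c i) (fun x _ => ‖x‖ ^ r)
  have i3 : Integrable (fun x => ‖ps F (fun i => ε i * c i) x‖ ^ r) leb :=
    integ F c (fun i => ε i * c i) (fun _ y => ‖y‖ ^ r)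
  simp only [Wf] at hm
  rw [integral_sub i1 (i2.const_mul _), integral_const_mul, sub_nonpos] at hm
  refine le_trans ?_ hm
  refine integral_mono i3 i1 fun x => ?_
  have ha : 0 ≤ ‖ps F (fun i => ε i * c i) x‖ := norm_nonneg _
  have e : ‖ps F (fun i => ε i * c i) x‖ ^ r = (‖ps F (fun i => ε i * c i) x‖ ^ 2) ^ (r / 2) := by
    rw [← Real.rpow_natCast, ← Real.rpow_mul ha]
    congr 1
    push_cast
    ring
  show ‖ps F (fun i => ε i * c i) x‖ ^ r ≤ _
  rw [e]
  apply Real.rpow_le_rpow (by positivity) _ (by positivity)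
  have : 0 ≤ ‖ps F c x‖ ^ 2 := by positivity
  linarith

end Pool.Agent.Y781.HG
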